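import Pool.Agent.Helper5.KPA.StD

/-! PROJECT KP, chapter A, module AKA (written by helper21). -/

set_option autoImplicit false

namespace Pool.Agent.Helper21.KPA

open Pool.Agent.Helper5.KPA Pool.Agent.Helper52.KP MvPolynomial

section Poly

variable {s : ℕ}

private theorem aka_hp_neg {i : ℤ} (hi : i < 0) {p : MvPolynomial (Fin s) ℂ} (hp' : p ∈ hp s i) :
    p = 0 := by
  unfold hp at hp'
  rw [if_neg (by omega)] at hp'
  exact (Submodule.mem_bot ℂ).1 hp'

private theorem aka_hp_nat (n : ℕ) (p : MvPolynomial (Fin s) ℂ) :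
    p ∈ hp s (n : ℤ) ↔ p ∈ homogeneousSubmodule (Fin s) ℂ n := by
  unfold hp
  rw [if_pos (Int.natCast_nonneg n), Int.toNat_natCast]

private theorem aka_hp_mul {i j : ℤ} {a b : MvPolynomial (Fin s) ℂ} (ha : a ∈ hp s i)
    (hb : b ∈ hp s j) : a * b ∈ hp s (i + j) := by
  by_cases hi : i < 0
  · rw [aka_hp_neg hi ha, zero_mul]
    exact (hp s _).zero_mem
  by_cases hj : j < 0
  · rw [aka_hp_neg hj hb, mul_zero]
    exact (hp s _).zero_mem
  obtain ⟨n, rfl⟩ := Int.eq_ofNat_of_zero_le (not_lt.1 hi)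
  obtain ⟨m, rfl⟩ := Int.eq_ofNat_of_zero_le (not_lt.1 hj)
  have e1 : ((n:ℤ) + (m:ℤ)) = ((n + m : ℕ) : ℤ) := by push_cast; rfl
  rw [e1, aka_hp_nat]
  rw [aka_hp_nat] at ha hb
  exact IsHomogeneous.mul ha hb

private theorem aka_X (l : Fin s) : (X l : MvPolynomial (Fin s) ℂ) ∈ hp s 1 := by
  have h := (aka_hp_nat (s := s) 1 (X l)).2 (isHomogeneous_X ℂ l)
  simpa using h

/-- induction on the degree -/
private theorem aka_ind (S : ℕ → Submodule ℂ (MvPolynomial (Fin s) ℂ)) (h1 : 1 ∈ S 0)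
    (hX : ∀ n l a, a ∈ S n → X l * a ∈ S (n + 1)) :
    ∀ n, ∀ a ∈ homogeneousSubmodule (Fin s) ℂ n, a ∈ S n := by
  intro n
  induction n with
  | zero =>
    intro a ha
    rw [homogeneousSubmodule_zero, Submodule.mem_one] at ha
    obtain ⟨c, rfl⟩ := ha
    rw [Algebra.algebraMap_eq_smul_one]
    exact (S 0).smul_mem c h1
  | succ n ih =>
    intro a ha
    rw [← homogeneousSubmodule_one_pow, pow_succ', homogeneousSubmodule_one_pow] at ha
    refine Submodule.mul_induction_on ha ?_ ?_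
    · intro p hp' q hq
      have hq' := ih q hq
      rw [homogeneousSubmodule_one_eq_span_X] at hp'
      refine Submodule.span_induction (p := fun x _ => x * q ∈ S (n+1)) ?_ ?_ ?_ ?_ hp'
      · rintro _ ⟨l, rfl⟩
        exact hX n l q hq'
      · rw [zero_mul]
        exact (S _).zero_mem
      · intro x y _ _ hx hy
        rw [add_mul]
        exact (S _).add_mem hx hy
      · intro c x _ hx
        rw [smul_mul_assoc]
        exact (S _).smul_mem c hx
    · intro x y hx hy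
      exact (S _).add_mem hx hy

private theorem aka_comp {δ : ℕ} {f : MvPolynomial (Fin s) ℂ}
    (hf : f ∈ homogeneousSubmodule (Fin s) ℂ δ) (q : MvPolynomial (Fin s) ℂ) (d : ℕ) :
    homogeneousComponent (δ + d) (f * q) = f * homogeneousComponent d q := by
  conv_lhs => rw [← sum_homogeneousComponent q]
  rw [Finset.mul_sum, map_sum]
  have h1 : ∀ i ∈ Finset.range (q.totalDegree + 1),
      homogeneousComponent (δ + d) (f * homogeneousComponent i q) =
        if d = i then f * homogeneousComponent i q else 0 := by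
    intro i _
    have h2 : f * homogeneousComponent i q ∈ homogeneousSubmodule (Fin s) ℂ (δ + i) :=
      IsHomogeneous.mul hf (homogeneousComponent_isHomogeneous i q)
    rw [homogeneousComponent_of_mem h2]
    by_cases h : d = i
    · rw [if_pos (by omega), if_pos h]
    · rw [if_neg (by omega), if_neg h]
  rw [Finset.sum_congr rfl h1, Finset.sum_ite_eq]
  by_cases h : d ∈ Finset.range (q.totalDegree + 1)
  · rw [if_pos h]
  · rw [if_neg h, homogeneousComponent_eq_zero, mul_zero]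
    rw [Finset.mem_range] at h
    omega

private theorem aka_div {δ : ℕ} {f : MvPolynomial (Fin s) ℂ} (hf0 : f ≠ 0)
    (hf : f ∈ hp s δ) {N : ℤ} {q : MvPolynomial (Fin s) ℂ} (h : f * q ∈ hp s (N + δ)) :
    q ∈ hp s N := by
  rw [aka_hp_nat] at hf
  by_cases hN : N + δ < 0
  · have h1 := aka_hp_neg hN h
    have h2 := (mul_eq_zero.1 h1).resolve_left hf0
    rw [h2]
    exact (hp s _).zero_mem
  · obtain ⟨n, hn⟩ := Int.eq_ofNat_of_zero_le (not_lt.1 hN)
    rw [hn, aka_hp_nat] at h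
    rw [← sum_homogeneousComponent q]
    refine (hp s N).sum_mem fun d _ => ?_
    have h3 := aka_comp hf q d
    rw [homogeneousComponent_of_mem h] at h3
    by_cases h4 : δ + d = n
    · have h5 : N = (d:ℤ) := by omega
      rw [h5, aka_hp_nat]
      exact homogeneousComponent_isHomogeneous d q
    · rw [if_neg h4] at h3
      rw [(mul_eq_zero.1 h3.symm).resolve_left hf0]
      exact (hp s N).zero_mem

private theorem aka_fd (i : ℤ) : FiniteDimensional ℂ (hp s i) := by
  by_cases hi : i < 0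
  · have h : hp s i = ⊥ := by
      unfold hp
      rw [if_neg (by omega)]
    rw [h]
    infer_instance
  · obtain ⟨n, rfl⟩ := Int.eq_ofNat_of_zero_le (not_lt.1 hi)
    have h : hp s (n:ℤ) = homogeneousSubmodule (Fin s) ℂ n := by
      ext p
      exact aka_hp_nat n p
    rw [h, ← homogeneousSubmodule_one_pow]
    have h1 : (homogeneousSubmodule (Fin s) ℂ 1).FG := by
      rw [homogeneousSubmodule_one_eq_span_X]
      exact Submodule.fg_span (Set.finite_range _)
    have h2 : ((homogeneousSubmodule (Fin s) ℂ 1) ^ n).FG := Submodule.FG.pow h1 n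
    exact Module.Finite.of_fg h2

end Poly

section Main

variable {e δ ρ : ℕ} {V : Type} [AddCommGroup V] [Module ℂ V]
  {ι : MvPolynomial (Fin (e + 1)) ℂ →ₐ[ℂ] Module.End ℂ V} {M : ℕ → Submodule ℂ V}
  {u : Fin ρ → V} {du : Fin ρ → ℕ} {f : MvPolynomial (Fin (e + 1)) ℂ}

private theorem aka_act (hG : Gr ι M) (n : ℕ) (a : MvPolynomial (Fin (e + 1)) ℂ)
    (ha : a ∈ homogeneousSubmodule (Fin (e + 1)) ℂ n) (j : ℕ) (x : V) (hx : x ∈ M j) :
    ι a x ∈ M (j + n) := by
  let S : ℕ → Submodule ℂ (MvPolynomial (Fin (e + 1)) ℂ) := fun n =>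
    { carrier := {a | ∀ j, ∀ x ∈ M j, ι a x ∈ M (j + n)}
      add_mem' := by
        intro a b ha hb j x hx
        rw [map_add, LinearMap.add_apply]
        exact (M _).add_mem (ha j x hx) (hb j x hx)
      zero_mem' := by
        intro j x hx
        rw [map_zero, LinearMap.zero_apply]
        exact (M _).zero_mem
      smul_mem' := by
        intro c a ha j x hx
        rw [map_smul, LinearMap.smul_apply]
        exact (M _).smul_mem c (ha j x hx) }
  have h := aka_ind S (by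
      intro j x hx
      rw [map_one]
      exact hx) (by
      intro n l a ha j x hx
      rw [map_mul]
      exact hG.act (j + n) l _ (ha j x hx)) n a ha
  exact h j x hx

/-- the map from coordinates to the module -/
private noncomputable def aP (ι : MvPolynomial (Fin (e + 1)) ℂ →ₐ[ℂ] Module.End ℂ V)
    (u : Fin ρ → V) : (Fin ρ → MvPolynomial (Fin (e + 1)) ℂ) →ₗ[ℂ] V where
  toFun x := ∑ i, ι (x i) (u i)
  map_add' x y := by
    rw [← Finset.sum_add_distrib]
    refine Finset.sum_congr rfl fun i _ => ?_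
    rw [Pi.add_apply, map_add, LinearMap.add_apply]
  map_smul' c x := by
    rw [RingHom.id_apply, Finset.smul_sum]
    refine Finset.sum_congr rfl fun i _ => ?_
    rw [Pi.smul_apply, map_smul, LinearMap.smul_apply]

private theorem aP_apply (x : Fin ρ → MvPolynomial (Fin (e + 1)) ℂ) :
    aP ι u x = ∑ i, ι (x i) (u i) := rfl

private theorem aP_mul (a : MvPolynomial (Fin (e + 1)) ℂ)
    (x : Fin ρ → MvPolynomial (Fin (e + 1)) ℂ) : aP ι u (a • x) = ι a (aP ι u x) := by
  rw [aP_apply, aP_apply, map_sum]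
  refine Finset.sum_congr rfl fun i _ => ?_
  rw [Pi.smul_apply, smul_eq_mul, map_mul]
  rfl

private theorem aP_inj (hB : Bas ι zm M u du δ f) : Function.Injective (aP ι u) := by
  rw [← LinearMap.ker_eq_bot, LinearMap.ker_eq_bot']
  intro x hx
  apply hB.ind
  rw [← aP_apply, hx]
  exact Submodule.zero_mem _

private theorem aka_tf (hL : Lat ι M) (hB : Bas ι zm M u du δ f) {k : ℕ} {m : V} (hm : m ∈ M k)
    (h : ι f m = 0) : m = 0 :=
  hL.tf f m hB.g0 (Submodule.mem_iSup_of_mem k hm) h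

private theorem aka_exp (hB : Bas ι zm M u du δ f) {k : ℕ} {m : V} (hm : m ∈ M k) :
    ∃ x : Fin ρ → MvPolynomial (Fin (e + 1)) ℂ,
      (∀ i, x i ∈ hp (e + 1) ((k : ℤ) + δ - du i)) ∧ ι f m = aP ι u x := by
  obtain ⟨x, h1, h2⟩ := hB.exp k m hm
  refine ⟨x, h1, ?_⟩
  have h3 : ι f m - ∑ j, ι (x j) (u j) = 0 := by
    have := h2
    unfold zm at this
    exact (Submodule.mem_bot ℂ).1 this
  rw [aP_apply]
  exact sub_eq_zero.1 h3

private theorem aP_mem (hG : Gr ι M) (hu : ∀ i, u i ∈ M (du i)) {k : ℕ}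
    {p : Fin ρ → MvPolynomial (Fin (e + 1)) ℂ}
    (hp' : ∀ i, p i ∈ hp (e + 1) ((k : ℤ) - du i)) (i : Fin ρ) : ι (p i) (u i) ∈ M k := by
  by_cases h : (k : ℤ) - du i < 0
  · rw [aka_hp_neg h (hp' i), map_zero, LinearMap.zero_apply]
    exact (M k).zero_mem
  · obtain ⟨n, hn⟩ := Int.eq_ofNat_of_zero_le (not_lt.1 h)
    have h1 := hp' i
    rw [hn, aka_hp_nat] at h1
    have h2 := aka_act hG n (p i) h1 (du i) (u i) (hu i)
    have h3 : du i + n = k := by omega
    rwa [h3] at h2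

/-- the lattice of coordinates -/
private noncomputable def aL (ι : MvPolynomial (Fin (e + 1)) ℂ →ₐ[ℂ] Module.End ℂ V)
    (M : ℕ → Submodule ℂ V) (u : Fin ρ → V) (du : Fin ρ → ℕ) (δ : ℕ)
    (f : MvPolynomial (Fin (e + 1)) ℂ) (k : ℕ) :
    Submodule ℂ (Fin ρ → MvPolynomial (Fin (e + 1)) ℂ) where
  carrier := {x | (∀ i, x i ∈ hp (e + 1) ((k : ℤ) + δ - du i)) ∧ ∃ m ∈ M k, ι f m = aP ι u x}
  add_mem' := by
    rintro x y ⟨h1, m, hm, h2⟩ ⟨h3, m', hm', h4⟩
    refine ⟨fun i => (hp _ _).add_mem (h1 i) (h3 i), m + m', (M k).add_mem hm hm', ?_⟩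
    rw [map_add, map_add, h2, h4]
  zero_mem' := ⟨fun i => (hp _ _).zero_mem, 0, (M k).zero_mem, by rw [map_zero, map_zero]⟩
  smul_mem' := by
    rintro c x ⟨h1, m, hm, h2⟩
    refine ⟨fun i => (hp _ _).smul_mem c (h1 i), c • m, (M k).smul_mem c hm, ?_⟩
    rw [map_smul, map_smul, h2]

private theorem aka_finrank (hL : Lat ι M) (hB : Bas ι zm M u du δ f) (k : ℕ) :
    Module.finrank ℂ (aL ι M u du δ f k) = Module.finrank ℂ (M k) := by
  have h1 : Function.Injective ((aP ι u).domRestrict (aL ι M u du δ f k)) := by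
    intro x y h
    exact Subtype.ext (aP_inj hB h)
  have h2 : Function.Injective ((ι f).domRestrict (M k)) := by
    rw [← LinearMap.ker_eq_bot, LinearMap.ker_eq_bot']
    intro m hm
    exact Subtype.ext (aka_tf hL hB m.2 hm)
  rw [← LinearMap.finrank_range_of_inj h1, ← LinearMap.finrank_range_of_inj h2]
  have h3 : LinearMap.range ((aP ι u).domRestrict (aL ι M u du δ f k)) =
      LinearMap.range ((ι f).domRestrict (M k)) := by
    ext v
    constructor
    · rintro ⟨⟨x, hx, m, hm, hmx⟩, rfl⟩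
      exact ⟨⟨m, hm⟩, hmx⟩
    · rintro ⟨⟨m, hm⟩, rfl⟩
      obtain ⟨x, hx1, hx2⟩ := aka_exp hB hm
      exact ⟨⟨x, hx1, m, hm, hx2⟩, hx2.symm⟩
  rw [h3]

/-- a form on the module, extended by zero -/
private noncomputable def aG (φ : (i : ℕ) → (M i →ₗ[ℂ] MvPolynomial (Fin (e + 1)) ℂ)) (n : ℕ)
    (v : V) : MvPolynomial (Fin (e + 1)) ℂ :=
  open Classical in if h : v ∈ M n then φ n ⟨v, h⟩ else 0

private theorem aG_mem (φ : (i : ℕ) → (M i →ₗ[ℂ] MvPolynomial (Fin (e + 1)) ℂ)) {n : ℕ}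
    {v : V} (h : v ∈ M n) : aG φ n v = φ n ⟨v, h⟩ := by
  unfold aG
  rw [dif_pos h]

private theorem aG_add (φ : (i : ℕ) → (M i →ₗ[ℂ] MvPolynomial (Fin (e + 1)) ℂ)) {n : ℕ}
    {v w : V} (hv : v ∈ M n) (hw : w ∈ M n) : aG φ n (v + w) = aG φ n v + aG φ n w := by
  rw [aG_mem φ hv, aG_mem φ hw, aG_mem φ ((M n).add_mem hv hw), ← map_add]
  rfl

private theorem aG_smul (φ : (i : ℕ) → (M i →ₗ[ℂ] MvPolynomial (Fin (e + 1)) ℂ)) {n : ℕ}
    {v : V} (c : ℂ) (hv : v ∈ M n) : aG φ n (c • v) = c • aG φ n v := by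
  rw [aG_mem φ hv, aG_mem φ ((M n).smul_mem c hv), ← map_smul]
  rfl

private theorem aG_zero (φ : (i : ℕ) → (M i →ₗ[ℂ] MvPolynomial (Fin (e + 1)) ℂ)) (n : ℕ) :
    aG φ n 0 = 0 := by
  rw [aG_mem φ (M n).zero_mem]
  exact map_zero (φ n)

private theorem aG_sum (φ : (i : ℕ) → (M i →ₗ[ℂ] MvPolynomial (Fin (e + 1)) ℂ)) {n : ℕ}
    {v : Fin ρ → V} (hv : ∀ i, v i ∈ M n) : aG φ n (∑ i, v i) = ∑ i, aG φ n (v i) := by
  classical
  have h : ∀ t : Finset (Fin ρ), aG φ n (∑ i ∈ t, v i) = ∑ i ∈ t, aG φ n (v i) := by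
    intro t
    induction t using Finset.induction_on with
    | empty => rw [Finset.sum_empty, Finset.sum_empty, aG_zero]
    | insert a t ha ih =>
      rw [Finset.sum_insert ha, Finset.sum_insert ha, aG_add φ (hv a)
        ((M n).sum_mem fun i _ => hv i), ih]
  exact h Finset.univ

private theorem aG_hom (hG : Gr ι M) {k : ℕ}
    {φ : (i : ℕ) → (M i →ₗ[ℂ] MvPolynomial (Fin (e + 1)) ℂ)} (hφ : φ ∈ Dl ι M k) (n : ℕ)
    (a : MvPolynomial (Fin (e + 1)) ℂ) (ha : a ∈ homogeneousSubmodule (Fin (e + 1)) ℂ n) (j : ℕ)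
    (x : V) (hx : x ∈ M j) : aG φ (j + n) (ι a x) = a * aG φ j x := by
  let S : ℕ → Submodule ℂ (MvPolynomial (Fin (e + 1)) ℂ) := fun n =>
    { carrier := {a | ∀ j, ∀ x ∈ M j, ι a x ∈ M (j + n) ∧ aG φ (j + n) (ι a x) = a * aG φ j x}
      add_mem' := by
        intro a b ha hb j x hx
        rw [map_add, LinearMap.add_apply]
        refine ⟨(M _).add_mem (ha j x hx).1 (hb j x hx).1, ?_⟩
        rw [aG_add φ (ha j x hx).1 (hb j x hx).1, (ha j x hx).2, (hb j x hx).2, add_mul]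
      zero_mem' := by
        intro j x hx
        rw [map_zero, LinearMap.zero_apply]
        exact ⟨(M _).zero_mem, by rw [aG_zero, zero_mul]⟩
      smul_mem' := by
        intro c a ha j x hx
        rw [map_smul, LinearMap.smul_apply]
        refine ⟨(M _).smul_mem c (ha j x hx).1, ?_⟩
        rw [aG_smul φ c (ha j x hx).1, (ha j x hx).2, smul_mul_assoc] }
  have h := aka_ind S (by
      intro j x hx
      rw [map_one]
      refine ⟨hx, ?_⟩
      change aG φ j x = 1 * aG φ j x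
      rw [one_mul]) (by
      intro n l a ha j x hx
      rw [map_mul]
      obtain ⟨h1, h2⟩ := ha j x hx
      have h3 := hG.act (j + n) l _ h1
      refine ⟨h3, ?_⟩
      change aG φ (j + n + 1) (ι (X l) (ι a x)) = X l * a * aG φ j x
      rw [aG_mem φ h3, hφ.2 (j + n) l ⟨ι a x, h1⟩ ⟨_, h3⟩ rfl, mul_assoc, ← h2, aG_mem φ h1]) n a ha
  exact (h j x hx).2

/-- coordinates determine the form -/
private theorem aG_coord (hL : Lat ι M) (hB : Bas ι zm M u du δ f) {k : ℕ}
    {φ : (i : ℕ) → (M i →ₗ[ℂ] MvPolynomial (Fin (e + 1)) ℂ)} (hφ : φ ∈ Dl ι M k) {j : ℕ}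
    {m : V} (hm : m ∈ M j) {x : Fin ρ → MvPolynomial (Fin (e + 1)) ℂ}
    (hx : ∀ i, x i ∈ hp (e + 1) ((j : ℤ) + δ - du i)) (hmx : ι f m = aP ι u x) :
    f * aG φ j m = ∑ i, aG φ (du i) (u i) * x i := by
  have hf : f ∈ homogeneousSubmodule (Fin (e + 1)) ℂ δ := (aka_hp_nat δ f).1 hB.gh
  rw [← aG_hom hL.gr hφ δ f hf j m hm, hmx, aP_apply]
  have hx' : ∀ i, x i ∈ hp (e + 1) (((j + δ : ℕ) : ℤ) - du i) := by
    intro i
    have := hx i
    push_cast
    exact this
  rw [aG_sum φ (aP_mem hL.gr hB.mem hx')]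
  refine Finset.sum_congr rfl fun i _ => ?_
  by_cases h : ((j + δ : ℕ) : ℤ) - du i < 0
  · rw [aka_hp_neg h (hx' i), map_zero, LinearMap.zero_apply, aG_zero, mul_zero]
  · obtain ⟨n, hn⟩ := Int.eq_ofNat_of_zero_le (not_lt.1 h)
    have h1 := hx' i
    rw [hn, aka_hp_nat] at h1
    have h2 := aG_hom hL.gr hφ n (x i) h1 (du i) (u i) (hB.mem i)
    have h3 : du i + n = j + δ := by omega
    rw [h3] at h2
    rw [h2, mul_comm]

/-- the relation defining the form attached to a vector of the dual lattice -/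
private def aR (ι : MvPolynomial (Fin (e + 1)) ℂ →ₐ[ℂ] Module.End ℂ V) (u : Fin ρ → V)
    (du : Fin ρ → ℕ) (δ : ℕ) (f : MvPolynomial (Fin (e + 1)) ℂ)
    (ψ : Fin ρ → MvPolynomial (Fin (e + 1)) ℂ) (j : ℕ) (m : V)
    (q : MvPolynomial (Fin (e + 1)) ℂ) : Prop :=
  ∃ x : Fin ρ → MvPolynomial (Fin (e + 1)) ℂ, (∀ i, x i ∈ hp (e + 1) ((j : ℤ) + δ - du i)) ∧
    ι f m = aP ι u x ∧ f * q = ∑ i, ψ i * x i

private theorem aR_fun (hB : Bas ι zm M u du δ f) {ψ : Fin ρ → MvPolynomial (Fin (e + 1)) ℂ}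
    {j : ℕ} {m : V} {q q' : MvPolynomial (Fin (e + 1)) ℂ} (h : aR ι u du δ f ψ j m q)
    (h' : aR ι u du δ f ψ j m q') : q = q' := by
  obtain ⟨x, h1, h2, h3⟩ := h
  obtain ⟨x', h1', h2', h3'⟩ := h'
  have hx : x = x' := aP_inj hB (h2.symm.trans h2')
  rw [hx, ← h3'] at h3
  exact mul_left_cancel₀ hB.g0 h3

private theorem aR_add {ψ : Fin ρ → MvPolynomial (Fin (e + 1)) ℂ}
    {j : ℕ} {m m' : V} {q q' : MvPolynomial (Fin (e + 1)) ℂ} (h : aR ι u du δ f ψ j m q)
    (h' : aR ι u du δ f ψ j m' q') : aR ι u du δ f ψ j (m + m') (q + q') := by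
  obtain ⟨x, h1, h2, h3⟩ := h
  obtain ⟨x', h1', h2', h3'⟩ := h'
  refine ⟨x + x', fun i => (hp _ _).add_mem (h1 i) (h1' i), by rw [map_add, map_add, h2, h2'], ?_⟩
  rw [mul_add, h3, h3', ← Finset.sum_add_distrib]
  refine Finset.sum_congr rfl fun i _ => ?_
  rw [Pi.add_apply, mul_add]

private theorem aR_smul {ψ : Fin ρ → MvPolynomial (Fin (e + 1)) ℂ}
    {j : ℕ} {m : V} {q : MvPolynomial (Fin (e + 1)) ℂ} (c : ℂ) (h : aR ι u du δ f ψ j m q) :
    aR ι u du δ f ψ j (c • m) (c • q) := by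
  obtain ⟨x, h1, h2, h3⟩ := h
  refine ⟨c • x, fun i => (hp _ _).smul_mem c (h1 i), by rw [map_smul, map_smul, h2], ?_⟩
  rw [mul_smul_comm, h3, Finset.smul_sum]
  refine Finset.sum_congr rfl fun i _ => ?_
  rw [Pi.smul_apply, mul_smul_comm]

private theorem aR_X {ψ : Fin ρ → MvPolynomial (Fin (e + 1)) ℂ}
    {j : ℕ} {m : V} {q : MvPolynomial (Fin (e + 1)) ℂ} (l : Fin (e + 1))
    (h : aR ι u du δ f ψ j m q) : aR ι u du δ f ψ (j + 1) (ι (X l) m) (X l * q) := by
  obtain ⟨x, h1, h2, h3⟩ := h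
  refine ⟨(X l : MvPolynomial (Fin (e + 1)) ℂ) • x, fun i => ?_, ?_, ?_⟩
  · have h4 := aka_hp_mul (aka_X l) (h1 i)
    rw [Pi.smul_apply, smul_eq_mul]
    have h5 : (1:ℤ) + ((j:ℤ) + δ - du i) = ((j + 1 : ℕ) : ℤ) + δ - du i := by push_cast; ring
    rw [← h5]
    exact h4
  · rw [aP_mul, ← h2]
    have h6 : ι f (ι (X l) m) = ι (f * X l) m := by rw [map_mul]; rfl
    have h7 : ι (X l) (ι f m) = ι (X l * f) m := by rw [map_mul]; rfl
    rw [h6, h7, mul_comm]
  · have h8 : f * (X l * q) = X l * (f * q) := by ring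
    rw [h8, h3, Finset.mul_sum]
    refine Finset.sum_congr rfl fun i _ => ?_
    rw [Pi.smul_apply, smul_eq_mul]
    ring

end Main

theorem hAKA : StAKA := by
  intro e δ ρ V _ _ ι M u du f hL hB
  refine ⟨aL ι M u du δ f, fun k x hx => hx.1, ?_, ?_, fun k => aka_finrank hL hB k, fun k => ?_⟩
  · rintro k l x ⟨h1, m, hm, h2⟩
    have h3 : dg (e + 1) ρ (X l) x = (X l : MvPolynomial (Fin (e + 1)) ℂ) • x := rfl
    rw [h3]
    refine ⟨fun i => ?_, ι (X l) m, hL.gr.act k l m hm, ?_⟩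
    · have h4 := aka_hp_mul (aka_X l) (h1 i)
      rw [Pi.smul_apply, smul_eq_mul]
      have h5 : (1:ℤ) + ((k:ℤ) + δ - du i) = ((k + 1 : ℕ) : ℤ) + δ - du i := by push_cast; ring
      rw [← h5]
      exact h4
    · rw [aP_mul, ← h2]
      have h6 : ι f (ι (X l) m) = ι (f * X l) m := by rw [map_mul]; rfl
      have h7 : ι (X l) (ι f m) = ι (X l * f) m := by rw [map_mul]; rfl
      rw [h6, h7, mul_comm]
  · intro k p hp'
    refine ⟨fun i => ?_, aP ι u p, ?_, ?_⟩
    · have h4 := aka_hp_mul hB.gh (hp' i)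
      rw [Pi.smul_apply, smul_eq_mul]
      have h5 : (δ:ℤ) + ((k:ℤ) - du i) = (k : ℤ) + δ - du i := by ring
      rw [← h5]
      exact h4
    · rw [aP_apply]
      exact (M k).sum_mem fun i _ => aP_mem hL.gr hB.mem hp' i
    · rw [aP_mul]
  · -- the dual
    have hmem : ∀ φ : Dl ι M k, (fun i => aG φ.1 (du i) (u i)) ∈ Lst f du (aL ι M u du δ f) k := by
      rintro ⟨φ, hφ⟩
      refine ⟨fun i => ?_, ?_⟩
      · have h1 := hφ.1 (du i) ⟨u i, hB.mem i⟩
        rw [← aG_mem φ (hB.mem i)] at h1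
        have h2 : (du i : ℤ) + k - ((e + 1 : ℕ) : ℤ) = (du i : ℤ) + k - (e + 1) := by push_cast; rfl
        rw [← h2]
        exact h1
      · rintro j x ⟨hx1, m, hm, hmx⟩
        exact ⟨aG φ j m, (aG_coord hL hB hφ hm hx1 hmx).symm⟩
    let Ψ : Dl ι M k →ₗ[ℂ] Lst f du (aL ι M u du δ f) k :=
      { toFun := fun φ => ⟨fun i => aG φ.1 (du i) (u i), hmem φ⟩
        map_add' := by
          intro φ φ'
          apply Subtype.ext
          funext i
          change aG (φ.1 + φ'.1) (du i) (u i) = aG φ.1 (du i) (u i) + aG φ'.1 (du i) (u i)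
          rw [aG_mem _ (hB.mem i), aG_mem _ (hB.mem i), aG_mem _ (hB.mem i)]
          rfl
        map_smul' := by
          intro c φ
          apply Subtype.ext
          funext i
          change aG (c • φ.1) (du i) (u i) = c • aG φ.1 (du i) (u i)
          rw [aG_mem _ (hB.mem i), aG_mem _ (hB.mem i)]
          rfl }
    have hinj : Function.Injective Ψ := by
      rintro ⟨φ, hφ⟩ ⟨φ', hφ'⟩ h0
      have h1 : ∀ i, aG φ (du i) (u i) = aG φ' (du i) (u i) := by
        intro i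
        have h2 := congrArg Subtype.val h0
        exact congrFun h2 i
      apply Subtype.ext
      funext j
      ext1 m
      obtain ⟨x, hx1, hx2⟩ := aka_exp hB m.2
      have h3 := aG_coord hL hB hφ m.2 hx1 hx2
      have h3' := aG_coord hL hB hφ' m.2 hx1 hx2
      have h4 : ∑ i, aG φ (du i) (u i) * x i = ∑ i, aG φ' (du i) (u i) * x i :=
        Finset.sum_congr rfl fun i _ => by rw [h1 i]
      rw [h4, ← h3', aG_mem φ m.2, aG_mem φ' m.2] at h3
      exact mul_left_cancel₀ hB.g0 h3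
    have hsur : Function.Surjective Ψ := by
      rintro ⟨ψ, hψ1, hψ2⟩
      have htot : ∀ (j : ℕ) (m : M j), ∃ q, aR ι u du δ f ψ j m q := by
        intro j m
        obtain ⟨x, hx1, hx2⟩ := aka_exp hB m.2
        obtain ⟨q, hq⟩ := hψ2 j x ⟨hx1, m, m.2, hx2⟩
        exact ⟨q, x, hx1, hx2, hq.symm⟩
      choose Q hQ using htot
      let φ : (i : ℕ) → (M i →ₗ[ℂ] MvPolynomial (Fin (e + 1)) ℂ) := fun j =>
        { toFun := Q j
          map_add' := by
            intro m m'
            exact aR_fun hB (hQ j (m + m')) (aR_add (hQ j m) (hQ j m'))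
          map_smul' := by
            intro c m
            exact aR_fun hB (hQ j (c • m)) (aR_smul c (hQ j m)) }
      have hφ : φ ∈ Dl ι M k := by
        refine ⟨?_, ?_⟩
        · intro j m
          obtain ⟨x, hx1, hx2, hx3⟩ := hQ j m
          apply aka_div hB.g0 hB.gh
          change f * Q j m ∈ _
          rw [hx3]
          refine (hp (e + 1) _).sum_mem fun i _ => ?_
          have h5 := aka_hp_mul (hψ1 i) (hx1 i)
          have h6 : ((du i : ℤ) + k - (e + 1)) + ((j:ℤ) + δ - du i) =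
              (j:ℤ) + k - ((e + 1 : ℕ) : ℤ) + δ := by push_cast; ring
          rw [h6] at h5
          exact h5
        · intro j l x y hxy
          have h7 := hQ (j + 1) y
          rw [hxy] at h7
          exact aR_fun hB h7 (aR_X l (hQ j x))
      refine ⟨⟨φ, hφ⟩, ?_⟩
      apply Subtype.ext
      funext i
      change aG φ (du i) (u i) = ψ i
      rw [aG_mem φ (hB.mem i)]
      have h8 := hQ (du i) ⟨u i, hB.mem i⟩
      refine aR_fun hB h8 ?_
      classical
      refine ⟨Pi.single i f, fun l => ?_, ?_, ?_⟩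
      · by_cases hl : l = i
        · subst hl
          rw [Pi.single_eq_same]
          have h9 : (du l : ℤ) + δ - du l = δ := by ring
          rw [h9]
          exact hB.gh
        · rw [Pi.single_eq_of_ne hl]
          exact (hp _ _).zero_mem
      · rw [aP_apply, Finset.sum_eq_single i]
        · rw [Pi.single_eq_same]
        · intro l _ hl
          rw [Pi.single_eq_of_ne hl, map_zero, LinearMap.zero_apply]
        · intro h
          exact absurd (Finset.mem_univ i) h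
      · rw [Finset.sum_eq_single i]
        · rw [Pi.single_eq_same, mul_comm]
        · intro l _ hl
          rw [Pi.single_eq_of_ne hl, mul_zero]
        · intro h
          exact absurd (Finset.mem_univ i) h
    let E : Dl ι M k ≃ₗ[ℂ] Lst f du (aL ι M u du δ f) k := LinearEquiv.ofBijective Ψ ⟨hinj, hsur⟩
    have hfd : FiniteDimensional ℂ (Lst f du (aL ι M u du δ f) k) := by
      have h10 : Lst f du (aL ι M u du δ f) k ≤
          Submodule.pi Set.univ (fun i => hp (e + 1) ((du i : ℤ) + k - (e + 1))) := by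
        rintro ψ ⟨h11, _⟩
        rw [Submodule.mem_pi]
        intro i _
        exact h11 i
      have h12 : FiniteDimensional ℂ (Submodule.pi Set.univ
          (fun i : Fin ρ => hp (e + 1) ((du i : ℤ) + k - (e + 1)))) := by
        have h13 : (Submodule.pi Set.univ
          (fun i : Fin ρ => hp (e + 1) ((du i : ℤ) + k - (e + 1)))).FG :=
          Submodule.fg_pi fun i => Module.Finite.iff_fg.1 (aka_fd _)
        exact Module.Finite.of_fg h13
      exact Submodule.finiteDimensional_of_le h10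
    refine ⟨?_, LinearEquiv.finrank_eq E⟩
    exact Module.Finite.equiv E.symm

end Pool.Agent.Helper21.KPA
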