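import Pool.Agent.Helper5.KPA.StP

/-! PROJECT KP, chapter A, module MIJ (written by helper21). -/

set_option autoImplicit false

namespace Pool.Agent.Helper21.KPA

open Pool.Agent.Helper5.KPA Pool.Agent.Helper52.KP MvPolynomial

private theorem mij_mulQR {C : Cone} (hC : Good C) {a b : ℕ} {x y : QQ C.m} (hx : x ∈ QR C a)
    (hy : y ∈ QR C b) : x * y ∈ QR C (a + b) := by
  intro l
  rw [Polynomial.coeff_mul]
  exact (C.R (a + b)).sum_mem fun p _ => hC.mul a b _ _ (hx p.1) (hy p.2)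

private theorem mij_powR {C : Cone} (hC : Good C) {f : MvPolynomial (Fin C.m) ℂ} {a : ℕ}
    (hf : f ∈ C.R a) (j : ℕ) : f ^ j ∈ C.R (a * j) := by
  induction j with
  | zero =>
    rw [pow_zero, mul_zero]
    exact hC.one
  | succ j ih =>
    rw [pow_succ, mul_add, mul_one]
    exact hC.mul _ _ _ _ ih hf

private theorem mij_CQR {C : Cone} {a : ℕ} {f : MvPolynomial (Fin C.m) ℂ} (hf : f ∈ C.R a) :
    Polynomial.C f ∈ QR C a := by
  intro l
  rw [Polynomial.coeff_C]
  by_cases h : l = 0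
  · rw [if_pos h]
    exact hf
  · rw [if_neg h]
    exact (C.R a).zero_mem

private theorem mij_powQR {C : Cone} (hC : Good C) {x : QQ C.m} {a : ℕ}
    (hx : x ∈ QR C a) (j : ℕ) : x ^ j ∈ QR C (a * j) := by
  induction j with
  | zero =>
    rw [pow_zero, mul_zero]
    have h := mij_CQR (C := C) hC.one
    rwa [Polynomial.C_1] at h
  | succ j ih =>
    rw [pow_succ, mul_add, mul_one]
    exact mij_mulQR hC ih hx

private theorem mij_XQR {C : Cone} (hC : Good C) : (Polynomial.X : QQ C.m) ∈ QR C 0 := by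
  intro l
  rw [Polynomial.coeff_X]
  by_cases h : 1 = l
  · rw [if_pos h]
    exact hC.one
  · rw [if_neg h]
    exact (C.R 0).zero_mem

section Val

variable {C : Cone} {r : ℕ} {F : ℕ → ℕ → Submodule ℂ (MvPolynomial (Fin C.m) ℂ)} {h : ℕ}
  {v : Fin h → QQ C.m → ℤ} {b : Fin h → ℕ}

private theorem mij_vpow (hC : Good C) (hV : VD C r F h v b) (i : Fin h) {x : QQ C.m} {k : ℕ}
    (hx : x ∈ QR C (C.n * r * k)) (hx0 : x ≠ 0) (j : ℕ) : v i (x ^ j) = j * v i x := by
  induction j with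
  | zero =>
    have h1 := hV.cst i 1 one_ne_zero
    rw [map_one, map_one] at h1
    rw [pow_zero, h1]
    simp
  | succ j ih =>
    have h1 : x ^ j ∈ QR C (C.n * r * (k * j)) := by
      rw [← mul_assoc]
      exact mij_powQR hC hx j
    rw [pow_succ, hV.mul i (k * j) k _ _ h1 hx (pow_ne_zero _ hx0) hx0, ih]
    push_cast
    ring

private theorem mij_vl (hC : Good C) (hF : NF C r F) (hV : VD C r F h v b) (i : Fin h)
    {l' : MvPolynomial (Fin C.m) ℂ} (hl : l' ∈ C.R 1) (hl0 : l' ≠ 0) :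
    1 ≤ v i (Polynomial.C (l' ^ (C.n * r))) := by
  have hm : l' ^ (C.n * r) ∈ C.R (C.n * r) := by
    have h1 := mij_powR hC hl (C.n * r)
    rwa [one_mul] at h1
  have hq : Polynomial.C (l' ^ (C.n * r)) ∈ QR C (C.n * r * 1) := by
    rw [mul_one]
    exact mij_CQR hm
  have hX : (Polynomial.X : QQ C.m) ∈ QR C (C.n * r * 0) := by
    rw [mul_zero]
    exact mij_XQR hC
  have h0 : Polynomial.C (l' ^ (C.n * r)) ≠ 0 := by
    rw [Ne, Polynomial.C_eq_zero]
    exact pow_ne_zero _ hl0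
  have hB : Polynomial.C (l' ^ (C.n * r)) * Polynomial.X ∈ BB F 1 := by
    intro l
    rw [Polynomial.coeff_C_mul, Polynomial.coeff_X]
    by_cases h1 : 1 = l
    · rw [if_pos h1, mul_one, ← h1, hF.one]
      exact hm
    · rw [if_neg h1, mul_zero]
      exact (F 1 l).zero_mem
  have h2 := hV.nonneg i 1 _ hB (mul_ne_zero h0 Polynomial.X_ne_zero)
  rw [hV.mul i 1 0 _ _ hq hX h0 Polynomial.X_ne_zero, hV.tau i] at h2
  have h3 := hV.bpos i
  omega

end Val

theorem hMIJ (hMVV : StMVV) (hMSU : StMSU) (hCOP : StCOP) (hAGR : StAGR) : StMIJ := by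
  intro C hC r F hF h v b hV ℓ δ u hU
  have hr := hF.hr
  have hn := hC.hn
  have hu0 : u ≠ 0 := by
    intro h0
    apply hU.c1
    rw [h0, Polynomial.coeff_zero]
  have hvv := hMVV C hC r F hF h v b hV
  have hsu := hMSU C hC r F hF h v b hV u
  obtain ⟨l', hl1, hl0, hcop⟩ := hCOP C hC r F hF _ u hU.mem hu0
  set κ : ℕ := δ + ∑ i, (v i (u ^ r)).natAbs with hκ
  have hκi : ∀ i, 0 ≤ (r : ℤ) * κ + 1 + v i (u ^ r) := by
    intro i
    have h1 : (v i (u ^ r)).natAbs ≤ κ := by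
      have := Finset.single_le_sum (f := fun i => (v i (u ^ r)).natAbs)
        (fun _ _ => Nat.zero_le _) (Finset.mem_univ i)
      omega
    have h2 : κ ≤ r * κ := Nat.le_mul_of_pos_left _ hr
    have h3 : ((r * κ : ℕ) : ℤ) = (r : ℤ) * κ := by push_cast; rfl
    have h4 : ((v i (u ^ r)).natAbs : ℤ) ≤ (r : ℤ) * κ := by
      rw [← h3]
      exact_mod_cast le_trans h1 h2
    have h5 := neg_abs_le (v i (u ^ r))
    rw [Int.abs_eq_natAbs] at h5
    linarith
  refine ⟨κ, by omega, ?_⟩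
  set w : QQ C.m := Polynomial.C (l' ^ (C.n * (r * κ + 1))) with hw
  have hwQ : w ∈ QR C (C.n * (r * κ + 1)) := by
    have h1 := mij_powR hC hl1 (C.n * (r * κ + 1))
    rw [one_mul] at h1
    exact mij_CQR h1
  have hw0 : w ≠ 0 := by
    rw [hw, Ne, Polynomial.C_eq_zero]
    exact pow_ne_zero _ hl0
  have hwv : ∀ i, (r : ℤ) * κ + 1 ≤ v i (w ^ r) := by
    intro i
    have h1 : w ^ r = (Polynomial.C (l' ^ (C.n * r))) ^ (r * κ + 1) := by
      rw [hw, ← map_pow, ← map_pow, ← pow_mul, ← pow_mul]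
      congr 2
      ring
    have hm : Polynomial.C (l' ^ (C.n * r)) ∈ QR C (C.n * r * 1) := by
      rw [mul_one]
      have h1 := mij_powR hC hl1 (C.n * r)
      rw [one_mul] at h1
      exact mij_CQR h1
    have h0 : Polynomial.C (l' ^ (C.n * r)) ≠ 0 := by
      rw [Ne, Polynomial.C_eq_zero]
      exact pow_ne_zero _ hl0
    rw [h1, mij_vpow hC hV i hm h0]
    have h2 := mij_vl hC hF hV i hl1 hl0
    have h3 : (0:ℤ) ≤ ((r * κ + 1 : ℕ) : ℤ) := Int.natCast_nonneg _
    calc (r : ℤ) * κ + 1 = ((r * κ + 1 : ℕ) : ℤ) * 1 := by push_cast; ring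
      _ ≤ _ := mul_le_mul_of_nonneg_left h2 h3
  have huQ : u ∈ QR C (C.n * (r * δ - 1)) := by
    have h1 := hU.mem
    have h2 : C.n * (r * δ - 1) = C.n * r * δ - C.n := by
      rw [Nat.mul_sub, mul_one, mul_assoc]
    rw [h2]
    exact h1
  have hXu : (Polynomial.X : QQ C.m) ∣ u := Polynomial.X_dvd_iff.2 hU.c0
  -- multiplication by u
  have hmulu : ∀ q k' z, δ ≤ k' → q ≤ r * (k' - δ) → InM C r v u q (k' - δ) z →
      InM C r v u (q + 1) k' (u * z) := by
    intro q k' z hk' hq hz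
    have hzQ : z ∈ QR C (C.n * (r * (k' - δ) - q)) := by
      have h1 := hz.1
      have h2 : C.n * (r * (k' - δ) - q) = C.n * r * (k' - δ) - C.n * q := by
        rw [Nat.mul_sub, mul_assoc]
      rw [h2]
      exact h1
    have hrd : 1 ≤ r * δ := Nat.mul_pos hr hU.pos
    have hsum : r * (k' - δ) + r * δ = r * k' := by
      rw [← mul_add, Nat.sub_add_cancel hk']
    refine ⟨?_, ?_, ?_⟩
    · have h3 := mij_mulQR hC huQ hzQ
      have h4 : C.n * (r * δ - 1) + C.n * (r * (k' - δ) - q) = C.n * r * k' - C.n * (q + 1) := by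
        rw [← mul_add, mul_assoc, ← Nat.mul_sub]
        congr 1
        omega
      rw [h4] at h3
      exact h3
    · rw [← Polynomial.X_pow_dvd_iff, pow_succ']
      exact mul_dvd_mul hXu (Polynomial.X_pow_dvd_iff.2 hz.2.1)
    · intro hne i
      have hz0 : z ≠ 0 := right_ne_zero_of_mul hne
      rw [(hvv i).1 _ _ _ _ huQ hzQ hu0 hz0]
      have h5 := hz.2.2 hz0 i
      push_cast
      linarith
  intro p k hp hk hpk
  have hsumk : r * (k - δ) + r * δ = r * k := by
    rw [← mul_add, Nat.sub_add_cancel hk]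
  have hδκ : δ ≤ κ := by omega
  have hrκ : r * (k + κ) = r * k + r * κ := mul_add _ _ _
  have hrκ2 : r * (k + κ - δ) + r * δ = r * (k + κ) := by
    rw [← mul_add, Nat.sub_add_cancel (by omega)]
  have hrδκ : r * δ ≤ r * κ := Nat.mul_le_mul_left _ hδκ
  obtain ⟨hA, hAf, _⟩ := hsu (p + 1) k (by omega)
  obtain ⟨hB, hBf, _⟩ := hsu p (k - δ) (by omega)
  obtain ⟨hE, hEf, _⟩ := hsu p (k + κ) (by omega)
  obtain ⟨hD, hDf, _⟩ := hsu (p - 1) (k + κ - δ) (by omega)
  let Mw : QQ C.m →ₗ[ℂ] QQ C.m := LinearMap.mulLeft ℂ w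
  let Mu : QQ C.m →ₗ[ℂ] QQ C.m := LinearMap.mulLeft ℂ u
  have hMw : Function.Injective Mw := fun x y hxy => mul_left_cancel₀ hw0 hxy
  have hMu : Function.Injective Mu := fun x y hxy => mul_left_cancel₀ hu0 hxy
  set W1 := (MM C r v u (p + 1) k).map Mw with hW1
  set W2 := (MM C r v u (p - 1) (k + κ - δ)).map Mu with hW2
  have hf1 : Module.finrank ℂ W1 = Module.finrank ℂ (MM C r v u (p + 1) k) :=
    (Submodule.equivMapOfInjective Mw hMw _).finrank_eq.symm
  have hf2 : Module.finrank ℂ W2 = Module.finrank ℂ (MM C r v u (p - 1) (k + κ - δ)) :=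
    (Submodule.equivMapOfInjective Mu hMu _).finrank_eq.symm
  have hle1 : W1 ≤ MM C r v u p (k + κ) := by
    rintro _ ⟨x, hx, rfl⟩
    have hx1 := (hA x).1 hx
    change w * x ∈ _
    refine (hE _).2 ⟨?_, ?_, ?_⟩
    · have h1 := mij_mulQR hC hwQ hx1.1
      have h2 : C.n * (r * κ + 1) + (C.n * r * k - C.n * (p + 1)) = C.n * r * (k + κ) - C.n * p := by
        rw [mul_assoc, mul_assoc, ← Nat.mul_sub, ← Nat.mul_sub, ← mul_add]
        congr 1
        omega
      rw [h2] at h1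
      exact h1
    · intro l hl
      rw [hw, Polynomial.coeff_C_mul, hx1.2.1 l (by omega), mul_zero]
    · intro hne i
      have hx0 : x ≠ 0 := right_ne_zero_of_mul hne
      have hxQ : x ∈ QR C (C.n * (r * k - (p + 1))) := by
        have h2 : C.n * (r * k - (p + 1)) = C.n * r * k - C.n * (p + 1) := by
          rw [Nat.mul_sub, mul_assoc]
        rw [h2]
        exact hx1.1
      rw [(hvv i).1 _ _ _ _ hwQ hxQ hw0 hx0]
      have h5 := hx1.2.2 hx0 i
      have h6 := hwv i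
      have h7 := hκi i
      push_cast at h5
      linarith
  have hle2 : W2 ≤ MM C r v u p (k + κ) := by
    rintro _ ⟨z, hz, rfl⟩
    have hz1 := (hD z).1 hz
    change u * z ∈ _
    refine (hE _).2 ?_
    have h1 := hmulu (p - 1) (k + κ) z (by omega) (by omega) hz1
    rw [Nat.sub_add_cancel hp] at h1
    exact h1
  have hinf : W1 ⊓ W2 ≤ ((MM C r v u p (k - δ)).map Mu).map Mw := by
    rintro _ ⟨⟨x, hx, rfl⟩, ⟨z, hz, hzx⟩⟩
    have hx1 := (hA x).1 hx
    have hz1 := (hD z).1 hz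
    have heq : w * x = u * z := hzx.symm
    refine ⟨x, ?_, rfl⟩
    by_cases hx0 : x = 0
    · rw [hx0]
      exact Submodule.zero_mem _
    have heq2 : Polynomial.C l' ^ (C.n * (r * κ + 1)) * x = u * z := by
      rw [← heq, hw, map_pow]
    obtain ⟨hk0, y, hy, hxy⟩ := hcop _ _ _ x z hx1.1 hz1.1 heq2 hx0
    have hy0 : y ≠ 0 := by
      intro h0
      apply hx0
      rw [hxy, h0, mul_zero]
    have hyQ : y ∈ QR C (C.n * (r * (k - δ) - p)) := by
      have h2 : C.n * r * k - C.n * (p + 1) - (C.n * r * δ - C.n) = C.n * (r * (k - δ) - p) := by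
        have h3 : C.n * r * δ - C.n = C.n * (r * δ - 1) := by rw [Nat.mul_sub, mul_one, mul_assoc]
        rw [h3, mul_assoc, ← Nat.mul_sub, ← Nat.mul_sub]
        congr 1
        have hrd : 1 ≤ r * δ := Nat.mul_pos hr hU.pos
        omega
      rw [h2] at hy
      exact hy
    refine ⟨y, (hB y).2 ⟨?_, ?_, ?_⟩, hxy.symm⟩
    · have h2 : C.n * (r * (k - δ) - p) = C.n * r * (k - δ) - C.n * p := by
        rw [Nat.mul_sub, mul_assoc]
      rw [← h2]
      exact hyQ
    · rw [← Polynomial.X_pow_dvd_iff]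
      obtain ⟨u', hu'⟩ := hXu
      have h3 : (Polynomial.X : QQ C.m) ^ (p + 1) ∣ u * y := by
        rw [← hxy]
        exact Polynomial.X_pow_dvd_iff.2 hx1.2.1
      rw [hu', pow_succ', mul_assoc] at h3
      have h4 := (mul_dvd_mul_iff_left (Polynomial.X_ne_zero (R := MvPolynomial (Fin C.m) ℂ))).1 h3
      refine Polynomial.prime_X.pow_dvd_of_dvd_mul_left p ?_ h4
      intro h5
      apply hU.c1
      rw [hu', Polynomial.coeff_X_mul]
      exact Polynomial.X_dvd_iff.1 h5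
    · intro _ i
      have h5 := hx1.2.2 hx0 i
      rw [hxy, (hvv i).1 _ _ _ _ huQ hyQ hu0 hy0] at h5
      push_cast at h5
      linarith
  have hsup := Submodule.finrank_sup_add_finrank_inf_eq W1 W2
  have hs1 : Module.finrank ℂ (W1 ⊔ W2 : Submodule ℂ (QQ C.m)) ≤
      Module.finrank ℂ (MM C r v u p (k + κ)) := Submodule.finrank_mono (sup_le hle1 hle2)
  have hs2 : Module.finrank ℂ (W1 ⊓ W2 : Submodule ℂ (QQ C.m)) ≤
      Module.finrank ℂ (MM C r v u p (k - δ)) :=
    le_trans (Submodule.finrank_mono hinf)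
      (le_trans (Submodule.finrank_map_le _ _) (Submodule.finrank_map_le _ _))
  have hfin : Module.finrank ℂ (MM C r v u (p + 1) k) +
      Module.finrank ℂ (MM C r v u (p - 1) (k + κ - δ)) ≤
      Module.finrank ℂ (MM C r v u p (k - δ)) + Module.finrank ℂ (MM C r v u p (k + κ)) := by
    rw [← hf1, ← hf2, ← hsup]
    omega
  unfold dM
  exact_mod_cast hfin

end Pool.Agent.Helper21.KPA
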